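import Pool.Agent.H60.CM.Basic

/-!
# (ELL) the coefficients are elliptic.  helper34
-/

set_option autoImplicit false

open Set Function MeasureTheory Filter Topology
open scoped Manifold ContDiff Matrix
open Pool.Agent.H60.CM

namespace Pool.Agent.H34.CM

theorem dp_nonneg (v : V3) : 0 ≤ v ⬝ᵥ v := by
  rw [Matrix.vec3_dotProduct]
  nlinarith [mul_self_nonneg (v 0), mul_self_nonneg (v 1), mul_self_nonneg (v 2)]

theorem dp_pos {v : V3} (h : v ≠ 0) : 0 < v ⬝ᵥ v := by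
  refine lt_of_le_of_ne (dp_nonneg v) fun h2 => h ?_
  exact dotProduct_self_eq_zero.1 h2.symm

theorem pd_smooth {X : E2 → V3} {O : Set E2} (hO : IsOpen O) (hX : ContDiffOn ℝ ∞ X O)
    (i : Fin 2) : ContDiffOn ℝ ∞ (fun y => pd X y i) O := by
  have h : ContDiffOn ℝ ∞ (fderiv ℝ X) O := hX.fderiv_of_isOpen hO (by simp)
  exact h.clm_apply contDiffOn_const

theorem pd_smooth_coord {X : E2 → V3} {O : Set E2} (hO : IsOpen O) (hX : ContDiffOn ℝ ∞ X O)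
    (i : Fin 2) (k : Fin 3) : ContDiffOn ℝ ∞ (fun y => pd X y i k) O :=
  contDiffOn_pi.1 (pd_smooth hO hX i) k

theorem dp_smooth {X : E2 → V3} {O : Set E2} (hO : IsOpen O) (hX : ContDiffOn ℝ ∞ X O)
    (i j : Fin 2) : ContDiffOn ℝ ∞ (fun y => pd X y i ⬝ᵥ pd X y j) O := by
  have h : (fun y => pd X y i ⬝ᵥ pd X y j) = fun y =>
      pd X y i 0 * pd X y j 0 + pd X y i 1 * pd X y j 1 + pd X y i 2 * pd X y j 2 := by
    funext y
    rw [Matrix.vec3_dotProduct]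
  rw [h]
  have c := fun i k => pd_smooth_coord hO hX i k
  exact (((c i 0).mul (c j 0)).add ((c i 1).mul (c j 1))).add ((c i 2).mul (c j 2))

theorem cr_eq (a b : V3) : (a ⨯₃ b) ⬝ᵥ (a ⨯₃ b) = (a ⬝ᵥ a) * (b ⬝ᵥ b) - (a ⬝ᵥ b) * (a ⬝ᵥ b) := by
  rw [cross_dot_cross, dotProduct_comm b a]

theorem pf_ELL (_h1 : T_PDF) : T_ELL := by
  intro D O ψ hψ
  have hO := hψ.isOpen
  have hX : ContDiffOn ℝ ∞ (D.x ∘ ψ) O := by
    rw [← contMDiffOn_iff_contDiffOn]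
    exact D.smx.comp_contMDiffOn hψ.smooth
  have himm := hψ.imm
  generalize D.x ∘ ψ = X at hX himm
  have hW : ContDiffOn ℝ ∞ (fun y => (pd X y 0 ⨯₃ pd X y 1) ⬝ᵥ (pd X y 0 ⨯₃ pd X y 1)) O := by
    have h : (fun y => (pd X y 0 ⨯₃ pd X y 1) ⬝ᵥ (pd X y 0 ⨯₃ pd X y 1)) = fun y =>
        (pd X y 0 ⬝ᵥ pd X y 0) * (pd X y 1 ⬝ᵥ pd X y 1) -
          (pd X y 0 ⬝ᵥ pd X y 1) * (pd X y 0 ⬝ᵥ pd X y 1) := by
      funext y
      rw [cr_eq]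
    rw [h]
    exact ((dp_smooth hO hX 0 0).mul (dp_smooth hO hX 1 1)).sub
      ((dp_smooth hO hX 0 1).mul (dp_smooth hO hX 0 1))
  have hWp : ∀ y ∈ O, 0 < (pd X y 0 ⨯₃ pd X y 1) ⬝ᵥ (pd X y 0 ⨯₃ pd X y 1) :=
    fun y hy => dp_pos (himm y hy)
  have haw : ContDiffOn ℝ ∞ (aw X) O := hW.sqrt fun y hy => (hWp y hy).ne'
  have hawp : ∀ y ∈ O, 0 < aw X y := fun y hy => Real.sqrt_pos.2 (hWp y hy)
  have haw0 : ∀ y ∈ O, aw X y ≠ 0 := fun y hy => (hawp y hy).ne'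
  refine ⟨hO, (dp_smooth hO hX 1 1).div haw haw0, (dp_smooth hO hX 0 1).neg.div haw haw0,
    (dp_smooth hO hX 0 0).div haw haw0, ?_, ?_⟩
  · intro y hy
    refine div_pos (dp_pos fun h => himm y hy ?_) (hawp y hy)
    rw [h, map_zero]
  · intro y hy
    have h1 : aw X y * aw X y = (pd X y 0 ⨯₃ pd X y 1) ⬝ᵥ (pd X y 0 ⨯₃ pd X y 1) :=
      Real.mul_self_sqrt (hWp y hy).le
    have h2 : pd X y 1 ⬝ᵥ pd X y 1 / aw X y * (pd X y 0 ⬝ᵥ pd X y 0 / aw X y) -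
        (-(pd X y 0 ⬝ᵥ pd X y 1) / aw X y) ^ 2 =
        ((pd X y 0 ⨯₃ pd X y 1) ⬝ᵥ (pd X y 0 ⨯₃ pd X y 1)) / (aw X y * aw X y) := by
      rw [cr_eq]
      have h3 := haw0 y hy
      field_simp
    rw [h2]
    exact div_pos (hWp y hy) (mul_pos (hawp y hy) (hawp y hy))

end Pool.Agent.H34.CM
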