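import Pool.Agent.H57.CM.Targets
import Pool.Agent.H57.LH.Ex

/-!
Row H0M of the board chm_modules: Urysohn spaces, the easy hypotheses.
-/

set_option autoImplicit false
set_option linter.unusedVariables false

namespace Pool.Agent.H34.CM

open Pool.Agent.H68.BP Pool.Agent.H58.SF Pool.Agent.H53.NR
open Pool.Agent.H53.GC (strOn sigOf)
open Pool.Agent.H57.AR (tp ty Ty)
open Pool.Agent.H57.LH (Hmg ty_strOn)
open Pool.Agent.H72.CH Pool.Agent.H57.CM
open Function

theorem pf_H0M : T_IDM → T_PLV → T_TPM → T_HMM → T_H0M := by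
  intro idm plv tpm hmm D V _ _ _ _ _ d hU
  have hPM : IsPM d := ⟨fun x => (hU.met.eq x x).2 rfl, hU.met.sym, hU.met.tri⟩
  obtain ⟨-, -, s, -, hs2, -, hs4, -⟩ := idm D
  refine ⟨hU.ne, inferInstance, ?_, ⟨plv D V d hPM, ?_⟩, ?_, ?_, hmm D V d hU⟩
  · intro l
    show 1 ≤ Nat.card (Fin 2)
    rw [Nat.card_eq_fintype_card, Fintype.card_fin]
    norm_num
  · intro x y h
    have h1 : d x y ≤ s (nl D) := (hs2 (nl D) le_rfl (d x y)).2 (le_of_eq h.symm)
    rw [hs4] at h1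
    exact (hU.met.eq x y).1 (le_antisymm h1 (DM.zero_le _))
  · intro x y h
    have h1 := ((tpm D V (Fin 2) d hU.met).1 x y).1 h 0 1
    show ni (d (x 0) (x 1)) - 1 = ni (d (y 0) (y 1)) - 1
    rw [h1]
  · intro x y
    refine ty_strOn.2 fun a => ?_
    show d x x = a ↔ d y y = a
    rw [(hU.met.eq x x).2 rfl, (hU.met.eq y y).2 rfl]

end Pool.Agent.H34.CM
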